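import Pool.Agent.W_92892c_h88f.Null47

/-!
From a theorem about all formal families with infinitely many exact equations to a finite set of
equations.
-/

namespace Pool.Agent.W_92892c_h88f

open PowerSeries

/-- The formal parity: `f_d E_d` is even or odd. -/
def Par (T : Set ℤ) (E f : ℤ → PowerSeries ℂ) : Prop :=
  ∀ d ∈ T, ∀ i j : ℕ, Odd i → Even j → coeff i (f d * E d) * coeff j (f d * E d) = 0

/-- The family of formal power series with the coefficients `x (some (d, i))`. -/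
noncomputable def fam (x : Option (ℤ × ℕ) → ℂ) (d : ℤ) : PowerSeries ℂ :=
  PowerSeries.mk fun i => x (some (d, i))

/-- The universal family. -/
noncomputable def ufam (d : ℤ) : PowerSeries (MvPolynomial (Option (ℤ × ℕ)) ℂ) :=
  PowerSeries.mk fun i => MvPolynomial.X (some (d, i))

theorem map_ufam (x : Option (ℤ × ℕ) → ℂ) (d : ℤ) :
    PowerSeries.map (MvPolynomial.eval x) (ufam d) = fam x d := by
  ext i
  simp [ufam, fam]

theorem map_const (x : Option (ℤ × ℕ) → ℂ) (E : PowerSeries ℂ) :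
    PowerSeries.map (MvPolynomial.eval x) (PowerSeries.map MvPolynomial.C E) = E := by
  ext i
  simp

/-- The coefficients of `f_d E_d` as polynomials. -/
noncomputable def gco (E : ℤ → PowerSeries ℂ) (d : ℤ) (i : ℕ) : MvPolynomial (Option (ℤ × ℕ)) ℂ :=
  coeff i (ufam d * PowerSeries.map MvPolynomial.C (E d))

theorem eval_gco (x : Option (ℤ × ℕ) → ℂ) (E : ℤ → PowerSeries ℂ) (d : ℤ) (i : ℕ) :
    MvPolynomial.eval x (gco E d i) = coeff i (fam x d * E d) := by
  unfold gco
  rw [← PowerSeries.coeff_map, map_mul, map_ufam, map_const]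

/-- The coset equation. -/
noncomputable def cos (r : ℤ → ℕ) (C : Finset ℤ) : MvPolynomial (Option (ℤ × ℕ)) ℂ :=
  coeff (∑ d ∈ C, r d) (∏ d ∈ C, ufam d)

theorem eval_cos (x : Option (ℤ × ℕ) → ℂ) (r : ℤ → ℕ) (C : Finset ℤ) :
    MvPolynomial.eval x (cos r C) = coeff (∑ d ∈ C, r d) (∏ d ∈ C, fam x d) := by
  unfold cos
  rw [← PowerSeries.coeff_map, map_prod]
  simp only [map_ufam]

open Classical in
/-- The system: parity, cosets, one coefficient is invertible. -/
noncomputable def sys (T : Set ℤ) (r : ℤ → ℕ) (E : ℤ → PowerSeries ℂ) (good : Finset ℤ → Prop)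
    (d0 : ℤ) (i0 : ℕ) : (ℤ × ℕ × ℕ) ⊕ (Finset ℤ ⊕ Unit) → MvPolynomial (Option (ℤ × ℕ)) ℂ
  | Sum.inl (d, i, j) => if d ∈ T ∧ Odd i ∧ Even j then gco E d i * gco E d j else 0
  | Sum.inr (Sum.inl C) => if good C then cos r C - 1 else 0
  | Sum.inr (Sum.inr _) => MvPolynomial.X none * MvPolynomial.X (some (d0, i0)) - 1

/-- One coefficient. -/
theorem finite_one (T : Set ℤ) (r : ℤ → ℕ) (E : ℤ → PowerSeries ℂ) (good : Finset ℤ → Prop)
    (d0 : ℤ) (i0 : ℕ)
    (hform : ∀ f : ℤ → PowerSeries ℂ, Par T E f →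
      (∀ C, good C → coeff (∑ d ∈ C, r d) (∏ d ∈ C, f d) = 1) → coeff i0 (f d0) = 0) :
    ∃ Φ : Finset (Finset ℤ), (∀ C ∈ Φ, good C) ∧ ∀ f : ℤ → PowerSeries ℂ, Par T E f →
      (∀ C ∈ Φ, coeff (∑ d ∈ C, r d) (∏ d ∈ C, f d) = 1) → coeff i0 (f d0) = 0 := by
  classical
  have hno : ¬ ∃ x : Option (ℤ × ℕ) → ℂ, ∀ e, MvPolynomial.eval x (sys T r E good d0 i0 e) = 0 := by
    rintro ⟨x, hx⟩
    have h1 : Par T E (fam x) := by
      intro d hd i j hi hj
      have h := hx (Sum.inl (d, i, j))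
      simp only [sys, if_pos (And.intro hd (And.intro hi hj)), map_mul, eval_gco] at h
      exact h
    have h2 : ∀ C, good C → coeff (∑ d ∈ C, r d) (∏ d ∈ C, fam x d) = 1 := by
      intro C hC
      have h := hx (Sum.inr (Sum.inl C))
      simp only [sys, if_pos hC, map_sub, map_one, eval_cos] at h
      exact sub_eq_zero.1 h
    have h3 := hform _ h1 h2
    have h4 := hx (Sum.inr (Sum.inr ()))
    simp only [sys, map_sub, map_mul, map_one, MvPolynomial.eval_X] at h4
    have h5 : x (some (d0, i0)) = 0 := by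
      have h6 : coeff i0 (fam x d0) = x (some (d0, i0)) := by simp [fam]
      rw [← h6]; exact h3
    rw [h5, mul_zero, zero_sub] at h4
    exact one_ne_zero (neg_eq_zero.1 h4)
  obtain ⟨s, hs⟩ := null_finite _ hno
  refine ⟨(s.filterMap (fun e => match e with
    | Sum.inr (Sum.inl C) => if good C then some C else none
    | _ => none) ?_), ?_, ?_⟩
  · rintro (⟨d, i, j⟩ | C | u) (⟨d', i', j'⟩ | C' | u') b hb hb'
    all_goals simp_all
  · intro C hC
    rw [Finset.mem_filterMap] at hC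
    obtain ⟨e, -, he⟩ := hC
    rcases e with ⟨d, i, j⟩ | C' | u
    · simp at he
    · simp only [Option.ite_none_right_eq_some, Option.some.injEq] at he
      exact he.2 ▸ he.1
    · simp at he
  · intro f hf hC
    by_contra hne
    apply hs
    let x : Option (ℤ × ℕ) → ℂ := fun o => match o with
      | some (d, i) => coeff i (f d)
      | none => (coeff i0 (f d0))⁻¹
    have hfam : ∀ d, fam x d = f d := by
      intro d
      ext i
      simp [fam, x]
    refine ⟨x, ?_⟩
    rintro (⟨d, i, j⟩ | C | u) he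
    · simp only [sys]
      split_ifs with h
      · rw [map_mul, eval_gco, eval_gco, hfam]
        exact hf d h.1 i j h.2.1 h.2.2
      · simp
    · simp only [sys]
      split_ifs with h
      · rw [map_sub, map_one, eval_cos]
        simp only [hfam]
        rw [hC C ?_, sub_self]
        rw [Finset.mem_filterMap]
        exact ⟨_, he, by simp [h]⟩
      · simp
    · simp only [sys, map_sub, map_mul, map_one, MvPolynomial.eval_X]
      show (coeff i0 (f d0))⁻¹ * coeff i0 (f d0) - 1 = 0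
      rw [inv_mul_cancel₀ hne, sub_self]

/-- All the coefficients below the rank. -/
theorem finite_cosets (T : Set ℤ) (r : ℤ → ℕ) (E : ℤ → PowerSeries ℂ) (good : Finset ℤ → Prop)
    (hform : ∀ f : ℤ → PowerSeries ℂ, Par T E f →
      (∀ C, good C → coeff (∑ d ∈ C, r d) (∏ d ∈ C, f d) = 1) →
        ∀ d ∈ T, ∀ i < r d, coeff i (f d) = 0) (d0 : ℤ) (hd0 : d0 ∈ T) :
    ∃ Φ : Finset (Finset ℤ), (∀ C ∈ Φ, good C) ∧ ∀ f : ℤ → PowerSeries ℂ, Par T E f →
      (∀ C ∈ Φ, coeff (∑ d ∈ C, r d) (∏ d ∈ C, f d) = 1) → ∀ i < r d0, coeff i (f d0) = 0 := by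
  classical
  have h1 : ∀ i : ℕ, i < r d0 → ∃ Φ : Finset (Finset ℤ), (∀ C ∈ Φ, good C) ∧
      ∀ f : ℤ → PowerSeries ℂ, Par T E f →
      (∀ C ∈ Φ, coeff (∑ d ∈ C, r d) (∏ d ∈ C, f d) = 1) → coeff i (f d0) = 0 := fun i hi =>
    finite_one T r E good d0 i fun f hf hC => hform f hf hC d0 hd0 i hi
  choose! Φ hΦ1 hΦ2 using h1
  refine ⟨(Finset.range (r d0)).biUnion Φ, ?_, ?_⟩
  · intro C hC
    obtain ⟨i, hi, hC⟩ := Finset.mem_biUnion.1 hC
    exact hΦ1 i (Finset.mem_range.1 hi) C hC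
  · intro f hf hC i hi
    exact hΦ2 i hi f hf fun C hC' => hC C (Finset.mem_biUnion.2 ⟨i, Finset.mem_range.2 hi, hC'⟩)

end Pool.Agent.W_92892c_h88f
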