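import Pool.Agent.W_92892c_v15.AnaX
import Pool.Agent.W_92892c_h88f.Form47

/-!
The bridge: the Taylor series of a family of functions satisfy the formal parity, and the quotients
are coefficients of their products.
-/

namespace Pool.Agent.W_92892c_h88f

open PowerSeries MQV

/-- The factor of the completed functions. -/
noncomputable def fac (γ : ℂ → ℂ) (A : ℤ → ℝ) (d : ℤ) : PowerSeries ℂ :=
  rescale ((Real.log (A d) : ℝ) : ℂ) (exp ℂ) * (PowerSeries.C (γ 1)⁻¹ * tay γ)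

/-- The normalised Taylor series. -/
noncomputable def ser (L : ℤ → ℂ → ℂ) (c : ℤ → ℂ) (d : ℤ) : PowerSeries ℂ :=
  PowerSeries.C (c d)⁻¹ * tay (L d)

theorem par_ser {real : Bool} {γ : ℂ → ℂ} {L : ℤ → ℂ → ℂ} {A : ℤ → ℝ} {c : ℤ → ℂ}
    (hF : TwistFamily real γ L A c) : Par (Twists real) (fac γ A) (ser L c) := by
  intro d hd i j hi hj
  obtain ⟨ε, hε⟩ := parity (hF.pos d hd) hF.gamma_an (hF.an d hd) (hF.fe d hd)
  have hA' : ((A d : ℝ) : ℂ) ≠ 0 := by exact_mod_cast (hF.pos d hd).ne'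
  have hcc : PowerSeries.C ((A d : ℝ) : ℂ)⁻¹ * PowerSeries.C ((A d : ℝ) : ℂ) = (1 : PowerSeries ℂ) := by
    rw [← map_mul, inv_mul_cancel₀ hA', map_one]
  have h1 : ser L c d * fac γ A d = PowerSeries.C ((c d)⁻¹ * (γ 1)⁻¹ * ((A d : ℝ) : ℂ)⁻¹) *
      (tay (fun s => (A d : ℂ) ^ s) * tay γ * tay (L d)) := by
    unfold ser fac
    rw [tay_cpow (hF.pos d hd), map_mul, map_mul]
    calc PowerSeries.C (c d)⁻¹ * tay (L d) * (rescale ((Real.log (A d) : ℝ) : ℂ) (exp ℂ) *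
          (PowerSeries.C (γ 1)⁻¹ * tay γ))
        = (PowerSeries.C ((A d : ℝ) : ℂ)⁻¹ * PowerSeries.C ((A d : ℝ) : ℂ)) *
          (PowerSeries.C (c d)⁻¹ * tay (L d) * (rescale ((Real.log (A d) : ℝ) : ℂ) (exp ℂ) *
          (PowerSeries.C (γ 1)⁻¹ * tay γ))) := by rw [hcc, one_mul]
      _ = _ := by ring
  rw [h1, coeff_C_mul, coeff_C_mul]
  have h2 := hε i
  have h3 := hε j
  rw [hi.neg_one_pow] at h2
  rw [hj.neg_one_pow] at h3
  generalize coeff i (tay (fun s => (A d : ℂ) ^ s) * tay γ * tay (L d)) = a at *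
  generalize coeff j (tay (fun s => (A d : ℂ) ^ s) * tay γ * tay (L d)) = b at *
  have h4 : 2 * (a * b) = 0 := by linear_combination (-b) * h2 + a * h3
  have h5 : a * b = 0 := (mul_eq_zero.1 h4).resolve_left two_ne_zero
  linear_combination ((c d)⁻¹ * (γ 1)⁻¹ * ((A d : ℝ) : ℂ)⁻¹) ^ 2 * h5

theorem quot_ser {L : ℤ → ℂ → ℂ} {r : ℤ → ℕ} {c : ℤ → ℂ} {C : Finset ℤ}
    (hL : ∀ d ∈ C, AnalyticAt ℂ (L d) 1) :
    bsdQuot L r c C = coeff (∑ d ∈ C, r d) (∏ d ∈ C, ser L c d) := by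
  rw [bsdQuot_eq hL]
  unfold ser
  rw [Finset.prod_mul_distrib, ← map_prod, coeff_C_mul, Finset.prod_inv_distrib, div_eq_inv_mul]

theorem coeff_ser (L : ℤ → ℂ → ℂ) (c : ℤ → ℂ) (d : ℤ) (i : ℕ) :
    coeff i (ser L c d) = (c d)⁻¹ * (iteratedDeriv i (L d) 1 / (i.factorial : ℂ)) := by
  unfold ser
  rw [coeff_C_mul, coeff_tay]

/-- The finite list for one twist, from the formal theorem. -/
theorem finite_list {real : Bool} {γ : ℂ → ℂ} {A : ℤ → ℝ} {r : ℤ → ℕ} {good : Finset ℤ → Prop}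
    (hgood : ∀ C, good C → ↑C ⊆ Twists real)
    (hform : ∀ f : ℤ → PowerSeries ℂ, Par (Twists real) (fac γ A) f →
      (∀ C, good C → coeff (∑ d ∈ C, r d) (∏ d ∈ C, f d) = 1) →
        ∀ d ∈ Twists real, ∀ i < r d, coeff i (f d) = 0) (d0 : ℤ) (hd0 : d0 ∈ Twists real)
    (hs : good {d0}) :
    ∃ Φ : Finset (Finset ℤ), (∀ C ∈ Φ, good C) ∧ ∀ (L : ℤ → ℂ → ℂ) (c : ℤ → ℂ),
      TwistFamily real γ L A c → (∀ C ∈ Φ, bsdQuot L r c C = 1) → BSD (L d0) (r d0) (c d0) := by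
  classical
  obtain ⟨Φ, h1, h2⟩ := finite_cosets (Twists real) r (fac γ A) good hform d0 hd0
  refine ⟨insert {d0} Φ, ?_, ?_⟩
  · intro C hC
    rcases Finset.mem_insert.1 hC with rfl | hC
    · exact hs
    · exact h1 C hC
  · intro L c hF hQ
    have h3 := h2 (ser L c) (par_ser hF) fun C hC => by
      rw [← quot_ser fun d hd => hF.an d (hgood C (h1 C hC) hd)]
      exact hQ C (Finset.mem_insert_of_mem hC)
    refine ⟨fun i hi => ?_, ?_⟩
    · have h4 := h3 i hi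
      rw [coeff_ser] at h4
      have h5 : (i.factorial : ℂ) ≠ 0 := by exact_mod_cast i.factorial_ne_zero
      have h6 := (mul_eq_zero.1 h4).resolve_left (inv_ne_zero (hF.ne d0 hd0))
      exact (div_eq_zero_iff.1 h6).resolve_right h5
    · have h4 := hQ {d0} (Finset.mem_insert_self _ _)
      rw [quot_ser fun d hd => by rw [Finset.mem_singleton.1 hd]; exact hF.an d0 hd0,
        Finset.sum_singleton, Finset.prod_singleton, coeff_ser,
        inv_mul_eq_one₀ (hF.ne d0 hd0)] at h4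
      exact h4.symm

end Pool.Agent.W_92892c_h88f
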