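import Pool.Agent.W_92892c_h85.HandC
import Pool.Agent.W_92892c_h88f.Bri47

/-!
The bridge from the quotients to the formal series for cosets inside any set of squarefree integers,
and the congruent number curves for a set `T` of twists (helper88).
-/

open Filter Topology

namespace MQV

open PowerSeries Pool.Agent.W_92892c_h88f PPM

/-- The quotient over the field of a coset of squarefree integers is a coefficient. -/
theorem quotK_ser {a2 a4 a6 : ℤ} (hΔ : (gcurve a2 a4 a6 1).Δ ≠ 0) (L : ℤ → ℂ → ℂ) (c : ℤ → ℂ)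
    {C : Finset ℤ} (hc : IsCoset C) (hsq : ∀ x ∈ C, Squarefree x)
    (hL : ∀ e ∈ C, AnalyticAt ℂ (L e) 1) {d : ℤ} (hd : d ∈ C) :
    quotK a2 a4 a6 L c d C =
      coeff (∑ e ∈ C, rk a2 a4 a6 e) (∏ e ∈ C, ser L c e) := by
  rw [quotK_eq hΔ L c false C hc (fun x hx => ⟨hsq x hx, fun h => absurd h (by simp)⟩) d hd,
    quot_ser hL]

/-- The numbers `A_d` of the congruent number curves. -/
theorem famA_mul {t : ℤ} (ht : 0 < t) {m : ℕ} (hm : Odd m) : famA (t * m) = famA t * m := by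
  obtain ⟨n, rfl⟩ : ∃ n : ℕ, t = n := ⟨t.toNat, (Int.toNat_of_nonneg ht.le).symm⟩
  have h1 : ((n : ℤ) * (m : ℤ)).toNat = n * m := by
    rw [← Nat.cast_mul, Int.toNat_natCast]
  have h2 : Odd (n * m) ↔ Odd n := by
    rw [Nat.odd_mul]
    exact ⟨fun h => h.1, fun h => ⟨h, hm⟩⟩
  have h3 : PPM.cond (-1) (n * m) = PPM.cond (-1) n * m ^ 2 := by
    unfold PPM.cond
    rw [if_pos rfl, if_pos rfl]
    simp only [h2]
    ring
  unfold famA
  rw [h1, h3, Int.toNat_natCast]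
  push_cast
  rw [Real.sqrt_mul (by positivity), Real.sqrt_sq (Nat.cast_nonneg m)]
  ring

/-- The family of the congruent number curves, for a set `T` of positive squarefree integers. -/
theorem congT {T : Set ℤ} (hT : ∀ d ∈ T, Squarefree d ∧ 0 < d) {L : ℤ → ℂ → ℂ} {c : ℤ → ℂ}
    (hL : ∀ d ∈ T, Differentiable ℂ (L d) ∧ EulerProduct (gcurve 0 (-1) 0 d) (L d))
    (hc : ∀ d ∈ T, c d ≠ 0) :
    AnalyticAt ℂ Complex.Gamma 1 ∧ Complex.Gamma 1 ≠ 0 ∧ (∀ d ∈ T, AnalyticAt ℂ (L d) 1) ∧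
      (∀ d ∈ T, 0 < famA d) ∧ (∀ d ∈ T, FunEqNear Complex.Gamma (L d) (famA d)) ∧
      (∀ B : ℝ, {d ∈ T | famA d ≤ B}.Finite) ∧ ∀ d ∈ T, c d ≠ 0 := by
  have hm : ∀ d ∈ T, d ∈ Twists true := fun d hd => ⟨(hT d hd).1, fun _ => (hT d hd).2⟩
  refine ⟨fam_gamma, by rw [Complex.Gamma_one]; exact one_ne_zero,
    fun d hd => (hL d hd).1.analyticAt 1, fun d hd => famA_pos d (hm d hd),
    fun d hd => fam_fe d (hm d hd) (L d) (hL d hd).1 (by rw [← gcurve_congr]; exact (hL d hd).2),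
    fun B => (fam_fin B).subset fun d hd => ⟨hm d hd.1, hd.2⟩, hc⟩

/-- The conductors along the products of odd primes. -/
theorem congCond {t0 : ℤ} (ht0 : 0 < t0) (P : Set ℕ) (hP : ∀ p ∈ P, p.Prime ∧ p ≠ 2) (m : ℕ)
    (hm : Squarefree m) (hmP : ∀ p : ℕ, p.Prime → p ∣ m → p ∈ P) :
    famA (t0 * m) = famA t0 * m := by
  refine famA_mul ht0 ?_
  rw [← Nat.not_even_iff_odd]
  intro h
  exact (hP 2 (hmP 2 Nat.prime_two h.two_dvd)).2 rfl

end MQV
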