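import Pool.Agent.W_92892c_v15.AnaX
import Pool.Agent.W_92892c_h88f.Bri47

/-!
The bridge for a family of functions given on a set `T` of twists.
-/

open Filter Topology

namespace Pool.Agent.W_92892c_h88f

open PowerSeries MQV

/-- Functions `L_d`, `d ∈ T`, analytic at `1`, with functional equations with one factor `γ` and with
numbers `A_d → ∞`, and constants `c_d ≠ 0`. -/
structure TFam (T : Set ℤ) (γ : ℂ → ℂ) (L : ℤ → ℂ → ℂ) (A : ℤ → ℝ) (c : ℤ → ℂ) : Prop where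
  gamma_an : AnalyticAt ℂ γ 1
  gamma_ne : γ 1 ≠ 0
  an : ∀ d ∈ T, AnalyticAt ℂ (L d) 1
  pos : ∀ d ∈ T, 0 < A d
  fe : ∀ d ∈ T, FunEqNear γ (L d) (A d)
  fin : ∀ B : ℝ, {d ∈ T | A d ≤ B}.Finite
  ne : ∀ d ∈ T, c d ≠ 0

theorem TFam.par {T : Set ℤ} {γ : ℂ → ℂ} {L : ℤ → ℂ → ℂ} {A : ℤ → ℝ} {c : ℤ → ℂ}
    (hF : TFam T γ L A c) : Par T (fac γ A) (ser L c) := by
  intro d hd i j hi hj
  obtain ⟨ε, hε⟩ := parity (hF.pos d hd) hF.gamma_an (hF.an d hd) (hF.fe d hd)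
  have hA' : ((A d : ℝ) : ℂ) ≠ 0 := by exact_mod_cast (hF.pos d hd).ne'
  have hcc : PowerSeries.C ((A d : ℝ) : ℂ)⁻¹ * PowerSeries.C ((A d : ℝ) : ℂ) = (1 : PowerSeries ℂ) := by
    rw [← map_mul, inv_mul_cancel₀ hA', map_one]
  have h1 : ser L c d * fac γ A d = PowerSeries.C ((c d)⁻¹ * (γ 1)⁻¹ * ((A d : ℝ) : ℂ)⁻¹) *
      (tay (fun s => (A d : ℂ) ^ s) * tay γ * tay (L d)) := by
    unfold ser fac
    rw [tay_cpow (hF.pos d hd), map_mul, map_mul]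
    calc PowerSeries.C (c d)⁻¹ * tay (L d) * (rescale ((Real.log (A d) : ℝ) : ℂ) (exp ℂ) *
          (PowerSeries.C (γ 1)⁻¹ * tay γ))
        = (PowerSeries.C ((A d : ℝ) : ℂ)⁻¹ * PowerSeries.C ((A d : ℝ) : ℂ)) *
          (PowerSeries.C (c d)⁻¹ * tay (L d) * (rescale ((Real.log (A d) : ℝ) : ℂ) (exp ℂ) *
          (PowerSeries.C (γ 1)⁻¹ * tay γ))) := by rw [hcc, one_mul]
      _ = _ := by ring
  rw [h1, coeff_C_mul, coeff_C_mul]
  have h2 := hε i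
  have h3 := hε j
  rw [hi.neg_one_pow] at h2
  rw [hj.neg_one_pow] at h3
  generalize coeff i (tay (fun s => (A d : ℂ) ^ s) * tay γ * tay (L d)) = a at *
  generalize coeff j (tay (fun s => (A d : ℂ) ^ s) * tay γ * tay (L d)) = b at *
  have h4 : 2 * (a * b) = 0 := by linear_combination (-b) * h2 + a * h3
  have h5 : a * b = 0 := (mul_eq_zero.1 h4).resolve_left two_ne_zero
  linear_combination ((c d)⁻¹ * (γ 1)⁻¹ * ((A d : ℝ) : ℂ)⁻¹) ^ 2 * h5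

theorem TFam.quot {T : Set ℤ} {γ : ℂ → ℂ} {L : ℤ → ℂ → ℂ} {A : ℤ → ℝ} {c : ℤ → ℂ}
    (hF : TFam T γ L A c) (r : ℤ → ℕ) {C : Finset ℤ} (hC : ↑C ⊆ T) :
    bsdQuot L r c C = coeff (∑ d ∈ C, r d) (∏ d ∈ C, ser L c d) :=
  quot_ser fun d hd => hF.an d (hC hd)

/-- The conjecture for one twist from its series. -/
theorem TFam.bsd {T : Set ℤ} {γ : ℂ → ℂ} {L : ℤ → ℂ → ℂ} {A : ℤ → ℝ} {c : ℤ → ℂ}
    (hF : TFam T γ L A c) (r : ℤ → ℕ) {d : ℤ} (hd : d ∈ T) (h1 : bsdQuot L r c {d} = 1)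
    (h2 : ∀ i < r d, coeff i (ser L c d) = 0) : BSD (L d) (r d) (c d) := by
  refine ⟨fun i hi => ?_, ?_⟩
  · have h4 := h2 i hi
    rw [coeff_ser] at h4
    have h5 : (i.factorial : ℂ) ≠ 0 := by exact_mod_cast i.factorial_ne_zero
    have h6 := (mul_eq_zero.1 h4).resolve_left (inv_ne_zero (hF.ne d hd))
    exact (div_eq_zero_iff.1 h6).resolve_right h5
  · rw [hF.quot r (C := {d}) (by simpa using hd), Finset.sum_singleton, Finset.prod_singleton,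
      coeff_ser, inv_mul_eq_one₀ (hF.ne d hd)] at h1
    exact h1.symm

theorem fac_zero {γ : ℂ → ℂ} (h : γ 1 ≠ 0) : coeff 0 (PowerSeries.C (γ 1)⁻¹ * tay γ) = 1 := by
  rw [coeff_C_mul, coeff_tay]
  simp [h]

/-- The finite list for finitely many twists, from the formal theorem. -/
theorem finite_listT {T : Set ℤ} {γ : ℂ → ℂ} {A : ℤ → ℝ} {r : ℤ → ℕ} {good : Finset ℤ → Prop}
    (hgood : ∀ C, good C → ↑C ⊆ T) (hs : ∀ d ∈ T, good {d})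
    (hform : ∀ f : ℤ → PowerSeries ℂ, Par T (fac γ A) f →
      (∀ C, good C → coeff (∑ d ∈ C, r d) (∏ d ∈ C, f d) = 1) →
        ∀ d ∈ T, ∀ i < r d, coeff i (f d) = 0) (D : Finset ℤ) (hD : ↑D ⊆ T) :
    ∃ Φ : Finset (Finset ℤ), (∀ C ∈ Φ, good C) ∧ ∀ (L : ℤ → ℂ → ℂ) (c : ℤ → ℂ),
      TFam T γ L A c → (∀ C ∈ Φ, bsdQuot L r c C = 1) → ∀ d ∈ D, BSD (L d) (r d) (c d) := by
  classical
  choose! Φ h1 h2 using fun (d : ℤ) (hd : d ∈ T) =>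
    finite_cosets T r (fac γ A) good hform d hd
  refine ⟨D.biUnion fun d => insert {d} (Φ d), ?_, ?_⟩
  · intro C hC
    obtain ⟨d, hd, hC⟩ := Finset.mem_biUnion.1 hC
    rcases Finset.mem_insert.1 hC with rfl | hC
    · exact hs d (hD hd)
    · exact h1 d (hD hd) C hC
  · intro L c hF hQ d hd
    refine hF.bsd r (hD hd) (hQ _ (Finset.mem_biUnion.2 ⟨d, hd, Finset.mem_insert_self _ _⟩)) ?_
    refine h2 d (hD hd) (ser L c) hF.par fun C hC => ?_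
    rw [← hF.quot r (hgood C (h1 d (hD hd) C hC))]
    exact hQ C (Finset.mem_biUnion.2 ⟨d, hd, Finset.mem_insert_of_mem hC⟩)

/-- All the twists, from the formal theorem. -/
theorem all_listT {T : Set ℤ} {γ : ℂ → ℂ} {A : ℤ → ℝ} {r : ℤ → ℕ} {good : Finset ℤ → Prop}
    (hgood : ∀ C, good C → ↑C ⊆ T) (hs : ∀ d ∈ T, good {d})
    (hform : ∀ f : ℤ → PowerSeries ℂ, Par T (fac γ A) f →
      (∀ C, good C → coeff (∑ d ∈ C, r d) (∏ d ∈ C, f d) = 1) →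
        ∀ d ∈ T, ∀ i < r d, coeff i (f d) = 0) (L : ℤ → ℂ → ℂ) (c : ℤ → ℂ)
    (hF : TFam T γ L A c) (hQ : ∀ C, good C → bsdQuot L r c C = 1) :
    ∀ d ∈ T, BSD (L d) (r d) (c d) := by
  intro d hd
  refine hF.bsd r hd (hQ _ (hs d hd)) (hform (ser L c) hF.par (fun C hC => ?_) d hd)
  rw [← hF.quot r (hgood C hC)]
  exact hQ C hC

end Pool.Agent.W_92892c_h88f
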