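import Pool.Agent.W_92892c_h85.Cfg
import Pool.Agent.W_92892c_h53.Exact
import Pool.Agent.W_92892c_h28.CoreB2

/-!
The formal theorem over an arbitrary group of exponent two: exact formulas for single elements, pairs
and fours give the order of vanishing for all the elements.
-/

open Filter Topology

namespace Pool.Agent.W_92892c_h88f

open PowerSeries

/-- The normal form of one series. -/
theorem one_data {l : ℂ} {R : PowerSeries ℂ} {r : ℕ} {f : PowerSeries ℂ} (hR0 : coeff 0 R = 1)
    (hpar : ∀ i j : ℕ, Odd i → Even j → coeff i (f * rescale l (exp ℂ) * R) *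
      coeff j (f * rescale l (exp ℂ) * R) = 0) (hr : coeff r f = 1) :
    ∃ (m k : ℕ) (F : PowerSeries ℂ), r = m + k ∧ f = X ^ m * F ∧ coeff k F = 1 ∧ coeff 0 F ≠ 0 ∧
      ∀ j, Odd j → coeff j (F * rescale l (exp ℂ) * R) = 0 := by
  have hne : f ≠ 0 := by
    intro h0
    rw [h0, map_zero] at hr
    exact one_ne_zero hr.symm
  obtain ⟨m, hm⟩ : ∃ m : ℕ, f.order = m := ⟨f.order.toNat, by
    rw [ENat.natCast_toNat (by rwa [Ne, order_eq_top])]⟩
  obtain ⟨G, hG⟩ : X ^ m ∣ f := by
    rw [X_pow_dvd_iff]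
    intro i hi
    exact coeff_of_lt_order i (by rw [hm]; exact_mod_cast hi)
  have hm0 : coeff m f ≠ 0 := by
    have := coeff_order hne
    rw [hm] at this
    simpa using this
  have hG0 : coeff 0 G ≠ 0 := by
    rw [hG, coeff_X_pow_mul'] at hm0
    simpa using hm0
  have hmr : m ≤ r := by
    by_contra hlt
    have := coeff_of_lt_order (φ := f) r (by rw [hm]; exact_mod_cast not_le.1 hlt)
    rw [hr] at this
    exact one_ne_zero this
  refine ⟨m, r - m, G, by omega, hG, ?_, hG0, ?_⟩
  · rw [hG, coeff_X_pow_mul', if_pos hmr] at hr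
    exact hr
  · intro j hj
    set H : PowerSeries ℂ := G * rescale l (exp ℂ) * R with hH
    have h2 : f * rescale l (exp ℂ) * R = X ^ m * H := by
      rw [hG, hH]; ring
    have hc : ∀ i : ℕ, coeff (m + i) (f * rescale l (exp ℂ) * R) = coeff i H := by
      intro i
      rw [h2, coeff_X_pow_mul', if_pos (Nat.le_add_right m i), Nat.add_sub_cancel_left]
    have hH0 : coeff 0 H ≠ 0 := by
      rw [hH]
      simp only [coeff_zero_eq_constantCoeff, map_mul]
      have e1 : constantCoeff R = 1 := by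
        rw [← coeff_zero_eq_constantCoeff_apply]; exact hR0
      have e2 : constantCoeff (rescale l (exp ℂ)) = 1 := by
        rw [← coeff_zero_eq_constantCoeff_apply, coeff_rescale, coeff_exp]
        simp
      have e3 : constantCoeff G ≠ 0 := by
        rw [← coeff_zero_eq_constantCoeff_apply]
        exact hG0
      rw [e1, e2, mul_one, mul_one]
      exact e3
    have h3 : coeff 0 H * coeff j H = 0 := by
      have h4 := hc 0
      have h5 := hc j
      rw [add_zero] at h4
      rw [← h4, ← h5]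
      rcases Nat.even_or_odd m with hm2 | hm2
      · rw [mul_comm]
        exact hpar (m + j) m (hm2.add_odd hj) hm2
      · exact hpar m (m + j) hm2 (hm2.add_odd hj)
    exact (mul_eq_zero.1 h3).resolve_left hH0

/-- **The formal theorem over a group of exponent two.** -/
theorem abs_all {D : Type} [AddCommGroup D] (h2 : ∀ a : D, a + a = 0) {R : PowerSeries ℂ}
    (hR : coeff 0 R = 1) (lam : D → ℝ) (hg : Tendsto lam cofinite atTop) (r : D → ℕ)
    (f : D → PowerSeries ℂ)
    (hpar : ∀ a, ∀ i j : ℕ, Odd i → Even j → coeff i (f a * rescale (lam a : ℂ) (exp ℂ) * R) *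
      coeff j (f a * rescale (lam a : ℂ) (exp ℂ) * R) = 0)
    (h1 : ∀ a, coeff (r a) (f a) = 1)
    (hpair : ∀ a b, a ≠ b → coeff (r a + r b) (f a * f b) = 1)
    (hfour : ∀ a b c, a ≠ b → a ≠ c → b ≠ c →
      coeff (r a + r b + r c + r (a + b + c)) (f a * f b * f c * f (a + b + c)) = 1)
    (p : ℕ → D) (lam0 : ℝ) (w : ℕ → ℝ) (hw : Function.Injective w)
    (hlam : ∀ I : Finset ℕ, lam (∑ i ∈ I, p i) = lam0 + ∑ i ∈ I, w i)
    (hrk : ∀ a : D, ∀ N : ℕ, ∃ M : ℕ, ∀ I : Finset ℕ, I.card ≤ N → r (a + ∑ i ∈ I, p i) ≤ M) :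
    ∀ a, ∀ i < r a, coeff i (f a) = 0 := by
  classical
  intro a
  choose m k F hr hf hk h0 hodd using fun a => one_data hR (hpar a) (h1 a)
  have hne : ∀ a, coeff 0 (F a) ≠ 0 := h0
  -- the exact structure
  have hE : W92892cH53.Exact R lam (fun a => PowerSeries.C (coeff 0 (F a))⁻¹ * F a) k := by
    refine ⟨?_, ?_, hg, ?_, ?_⟩
    · intro a j hj
      rw [mul_assoc, mul_assoc, coeff_C_mul, ← mul_assoc (F a), hodd a j hj, mul_zero]
    · intro a
      rw [coeff_C_mul, inv_mul_cancel₀ (hne a)]
    · intro a b hab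
      have h3 := hpair a b hab
      have h4 : r a + r b = (k a + k b) + (m a + m b) := by rw [hr a, hr b]; ring
      have h5 : f a * f b = X ^ (m a + m b) * (F a * F b) := by rw [hf a, hf b, pow_add]; ring
      rw [h4, h5, coeff_X_pow_mul', if_pos (Nat.le_add_left _ _), Nat.add_sub_cancel_right] at h3
      rw [show PowerSeries.C (coeff 0 (F a))⁻¹ * F a * (PowerSeries.C (coeff 0 (F b))⁻¹ * F b) =
        (PowerSeries.C (coeff 0 (F a))⁻¹ * PowerSeries.C (coeff 0 (F b))⁻¹) * (F a * F b) by ring,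
        ← map_mul, coeff_C_mul, h3, coeff_C_mul, coeff_C_mul, hk a, hk b]
      ring
    · intro a b c hab hac hbc
      have h3 := hfour a b c hab hac hbc
      have h4 : r a + r b + r c + r (a + b + c) =
          (k a + k b + k c + k (a + b + c)) + (m a + m b + m c + m (a + b + c)) := by
        rw [hr a, hr b, hr c, hr (a + b + c)]; ring
      have h5 : f a * f b * f c * f (a + b + c) = X ^ (m a + m b + m c + m (a + b + c)) *
          (F a * F b * F c * F (a + b + c)) := by
        rw [hf a, hf b, hf c, hf (a + b + c), pow_add, pow_add, pow_add]; ring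
      rw [h4, h5, coeff_X_pow_mul', if_pos (Nat.le_add_left _ _), Nat.add_sub_cancel_right] at h3
      rw [show PowerSeries.C (coeff 0 (F a))⁻¹ * F a * (PowerSeries.C (coeff 0 (F b))⁻¹ * F b) *
        (PowerSeries.C (coeff 0 (F c))⁻¹ * F c) *
        (PowerSeries.C (coeff 0 (F (a + b + c)))⁻¹ * F (a + b + c)) =
        (PowerSeries.C (coeff 0 (F a))⁻¹ * PowerSeries.C (coeff 0 (F b))⁻¹ *
          PowerSeries.C (coeff 0 (F c))⁻¹ * PowerSeries.C (coeff 0 (F (a + b + c)))⁻¹) *
          (F a * F b * F c * F (a + b + c)) by ring, ← map_mul, ← map_mul,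
        ← map_mul, coeff_C_mul, h3, coeff_C_mul, coeff_C_mul, coeff_C_mul, coeff_C_mul,
        hk a, hk b, hk c, hk (a + b + c)]
      ring
  have hkr : ∀ a, k a ≤ r a := fun a => by rw [hr a]; omega
  -- `p` is injective
  have hlin : ∀ i, lam (p i) = lam0 + w i := fun i => by
    have := hlam {i}
    simpa using this
  have hp : Function.Injective p := by
    intro i j hij
    apply hw
    have h3 := hlin i
    rw [hij, hlin j] at h3
    linarith
  have hsum0 : ∀ (N : ℕ), ∃ M : ℕ, ∀ I : Finset ℕ, I.card ≤ N → r (∑ i ∈ I, p i) ≤ M := by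
    intro N
    obtain ⟨M, hM⟩ := hrk 0 N
    exact ⟨M, fun I hI => by have := hM I hI; rwa [zero_add] at this⟩
  -- infinitely many good elements
  obtain ⟨M4, hM4⟩ := hsum0 4
  have hadd1 : ∀ (x : ℕ) (I : Finset ℕ), ∃ I' : Finset ℕ, I'.card ≤ I.card + 1 ∧
      p x + ∑ i ∈ I, p i = ∑ i ∈ I', p i := by
    intro x I
    by_cases hx : x ∈ I
    · refine ⟨I.erase x, (Finset.card_erase_le).trans (Nat.le_succ _), ?_⟩
      rw [← Finset.add_sum_erase I p hx, ← add_assoc, h2, zero_add]
    · exact ⟨insert x I, Finset.card_insert_le _ _, (Finset.sum_insert hx).symm⟩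
  have hinf : {a : D | k a = 0}.Infinite := by
    refine W92892cH53.good_infinite hE hR h2 p hp lam0 w hw ?_ M4 ?_
    · intro i j l n n1 n2 n3 n4 n5 n6
      have h7 := hlam {i, j, l, n}
      rw [Finset.sum_insert (by simp [n1, n2, n3]), Finset.sum_insert (by simp [n4, n5]),
        Finset.sum_insert (by simp [n6]), Finset.sum_singleton,
        Finset.sum_insert (by simp [n1, n2, n3]), Finset.sum_insert (by simp [n4, n5]),
        Finset.sum_insert (by simp [n6]), Finset.sum_singleton] at h7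
      rw [show p i + p j + p l + p n = p i + (p j + (p l + p n)) by abel, h7]
      ring
    · intro i j l n
      obtain ⟨I1, c1, e1⟩ := hadd1 l {n}
      obtain ⟨I2, c2, e2⟩ := hadd1 j I1
      obtain ⟨I3, c3, e3⟩ := hadd1 i I2
      rw [Finset.card_singleton] at c1
      rw [Finset.sum_singleton] at e1
      have h7 : p i + p j + p l + p n = ∑ x ∈ I3, p x := by
        rw [← e3, ← e2, ← e1]; abel
      rw [h7]
      exact (hkr _).trans (hM4 I3 (by omega))
  have hD : W92892c.DataB {a : D | k a = 0} R lam F k := by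
    refine ⟨hodd, h0, hk, hg, hinf, fun b hb => hb, ?_⟩
    intro a
    refine ⟨1, fun b _ hab => ?_⟩
    have h3 := hpair a b hab.symm
    have h4 : r a + r b = (k a + k b) + (m a + m b) := by rw [hr a, hr b]; ring
    have h5 : f a * f b = X ^ (m a + m b) * (F a * F b) := by rw [hf a, hf b, pow_add]; ring
    rw [h4, h5, coeff_X_pow_mul', if_pos (Nat.le_add_left _ _), Nat.add_sub_cancel_right] at h3
    rw [h3, norm_one]
  have hall : k a = 0 := by
    by_contra ha
    refine W92892cH85.cfg_contra h2 hR hE a (Nat.one_le_iff_ne_zero.2 ha) p lam0 w hw hlam ?_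
    intro N
    obtain ⟨M, hM⟩ := hrk a N
    obtain ⟨M', hM'⟩ := hsum0 N
    have hX := W92892c.coreB_finite hR hD (max M M')
    set Y : Set D := {d | 1 ≤ k d ∧ k d ≤ max M M'} with hYdef
    let Z : Set D := Y ∪ (fun b => a + b) '' Y ∪ {0, a}
    have hZ : Z.Finite := (hX.union (hX.image _)).union (by simp)
    obtain ⟨Λ, hΛ⟩ := (hZ.image lam).bddAbove
    have hwt : Tendsto w cofinite atTop := by
      have h3 : w = fun i => lam (p i) + (-lam0) := by
        funext i
        rw [hlin i]; ring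
      rw [h3]
      exact tendsto_atTop_add_const_right _ _ (hg.comp hp.tendsto_cofinite)
    rw [Nat.cofinite_eq_atTop] at hwt
    obtain ⟨B, hB0, hB⟩ : ∃ B : ℝ, 0 ≤ B ∧ ∀ i, -B ≤ w i := by
      obtain ⟨n0, hn0⟩ := eventually_atTop.1 (hwt.eventually_ge_atTop 0)
      refine ⟨∑ i ∈ Finset.range n0, |w i|, Finset.sum_nonneg fun i _ => abs_nonneg _, fun i => ?_⟩
      rcases lt_or_ge i n0 with hi | hi
      · have h3 : |w i| ≤ ∑ i ∈ Finset.range n0, |w i| :=
          Finset.single_le_sum (f := fun i => |w i|) (fun i _ => abs_nonneg _)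
            (Finset.mem_range.2 hi)
        have h4 := neg_abs_le (w i)
        linarith
      · have h3 := hn0 i hi
        have h4 : 0 ≤ ∑ i ∈ Finset.range n0, |w i| := Finset.sum_nonneg fun i _ => abs_nonneg _
        linarith
    obtain ⟨N0, hN0⟩ := eventually_atTop.1 (hwt.eventually_gt_atTop (Λ - lam0 + N * B))
    refine ⟨N0, fun I hI hi => ?_⟩
    obtain ⟨i, hiI, hi0⟩ := hi
    have hnot : (∑ i ∈ I, p i) ∉ Z := by
      intro hmem
      have h3 : lam (∑ i ∈ I, p i) ≤ Λ := hΛ ⟨_, hmem, rfl⟩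
      rw [hlam I, ← Finset.add_sum_erase I w hiI] at h3
      have h4 : -(N * B) ≤ ∑ x ∈ I.erase i, w x := by
        have h5 : ∑ x ∈ I.erase i, (-B) ≤ ∑ x ∈ I.erase i, w x :=
          Finset.sum_le_sum fun x _ => hB x
        rw [Finset.sum_const, nsmul_eq_mul] at h5
        have h6 : ((I.erase i).card : ℝ) ≤ N := by
          exact_mod_cast (Finset.card_erase_le).trans hI
        nlinarith
      have h7 := hN0 i hi0
      linarith
    refine ⟨?_, ?_, fun h3 => hnot (Or.inr (by rw [h3]; simp)), fun h3 => hnot (Or.inr (by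
      rw [h3]; simp))⟩
    · by_contra hne'
      apply hnot
      left; left
      exact ⟨Nat.one_le_iff_ne_zero.2 hne', (hkr _).trans ((hM' I hI).trans (le_max_right _ _))⟩
    · by_contra hne'
      apply hnot
      left; right
      refine ⟨a + ∑ i ∈ I, p i, ⟨Nat.one_le_iff_ne_zero.2 hne',
        (hkr _).trans ((hM I hI).trans (le_max_left _ _))⟩, ?_⟩
      show a + (a + ∑ i ∈ I, p i) = _
      rw [← add_assoc, h2, zero_add]
  intro i hi
  rw [hf a, coeff_X_pow_mul', if_neg]
  have := hr a
  omega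

end Pool.Agent.W_92892c_h88f
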