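import Mathlib

/-!
The Nullstellensatz in countably many variables over the complex numbers.
-/

namespace Pool.Agent.W_92892c_h88f

open MvPolynomial Cardinal

/-- A proper ideal of the polynomial ring over `ℂ` in countably many variables has a common zero. -/
theorem null {σ : Type} [Countable σ] (I : Ideal (MvPolynomial σ ℂ)) (h : I ≠ ⊤) :
    ∃ x : σ → ℂ, ∀ p ∈ I, MvPolynomial.eval x p = 0 := by
  obtain ⟨M, hM, hIM⟩ := Ideal.exists_le_maximal I h
  let _ : Field (MvPolynomial σ ℂ ⧸ M) := Ideal.Quotient.field M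
  have hrank : Module.rank ℂ (MvPolynomial σ ℂ ⧸ M) ≤ ℵ₀ := by
    have h1 : Module.rank ℂ (MvPolynomial σ ℂ ⧸ M) ≤ Module.rank ℂ (MvPolynomial σ ℂ) :=
      LinearMap.rank_le_of_surjective (Ideal.Quotient.mkₐ ℂ M).toLinearMap
        (Ideal.Quotient.mkₐ_surjective ℂ M)
    have h2 : Module.rank ℂ (MvPolynomial σ ℂ) ≤ ℵ₀ := by
      rw [MvPolynomial.rank_eq_lift]
      simp
    exact h1.trans h2
  have halg : Algebra.IsAlgebraic ℂ (MvPolynomial σ ℂ ⧸ M) := by
    refine ⟨fun y => ?_⟩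
    by_contra hy
    have hy' : Transcendental ℂ y := hy
    have h3 := hy'.linearIndependent_sub_inv.cardinal_lift_le_rank
    rw [Cardinal.lift_id, Cardinal.lift_id, Cardinal.mk_complex] at h3
    exact absurd (h3.trans hrank) (not_le.mpr Cardinal.aleph0_lt_continuum)
  have hsurj : Function.Surjective (algebraMap ℂ (MvPolynomial σ ℂ ⧸ M)) :=
    (IsAlgClosed.algebraMap_bijective_of_isIntegral (k := ℂ)).2
  choose x hx using fun i : σ => hsurj (Ideal.Quotient.mk M (X i))
  refine ⟨x, fun p hp => ?_⟩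
  have h4 : (Ideal.Quotient.mkₐ ℂ M) =
      (Algebra.ofId ℂ (MvPolynomial σ ℂ ⧸ M)).comp (MvPolynomial.aeval x) := by
    apply MvPolynomial.algHom_ext
    intro i
    simp only [AlgHom.comp_apply, MvPolynomial.aeval_X]
    exact (hx i).symm
  have h5 := congrArg (fun f => f p) h4
  simp only [AlgHom.comp_apply] at h5
  have h6 : (Ideal.Quotient.mkₐ ℂ M) p = 0 := Ideal.Quotient.eq_zero_iff_mem.mpr (hIM hp)
  rw [h6] at h5
  have h7 : algebraMap ℂ (MvPolynomial σ ℂ ⧸ M) (MvPolynomial.aeval x p) = 0 := h5.symm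
  have h8 := (algebraMap ℂ (MvPolynomial σ ℂ ⧸ M)).injective (h7.trans (map_zero _).symm)
  rw [MvPolynomial.aeval_eq_eval] at h8
  exact h8

end Pool.Agent.W_92892c_h88f
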