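import Mathlib

/-!
The Nullstellensatz in countably many variables over the complex numbers.
-/

namespace Pool.Agent.W_92892c_h88f

open MvPolynomial Cardinal

theorem null {σ : Type} [Countable σ] (I : Ideal (MvPolynomial σ ℂ)) (h : I ≠ ⊤) :
    ∃ x : σ → ℂ, ∀ p ∈ I, MvPolynomial.eval x p = 0 := by
  obtain ⟨M, hM, hIM⟩ := Ideal.exists_le_maximal I h
  let _ : Field (MvPolynomial σ ℂ ⧸ M) := Ideal.Quotient.field M
  -- the rank is countable
  have hrank : Module.rank ℂ (MvPolynomial σ ℂ ⧸ M) ≤ ℵ₀ := by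
    have h1 : Module.rank ℂ (MvPolynomial σ ℂ ⧸ M) ≤ Module.rank ℂ (MvPolynomial σ ℂ) :=
      LinearMap.rank_le_of_surjective (Ideal.Quotient.mkₐ ℂ M).toLinearMap
        (Ideal.Quotient.mkₐ_surjective ℂ M)
    refine h1.trans ?_
    rw [← (MvPolynomial.basisMonomials σ ℂ).mk_eq_rank'']
    exact Cardinal.mk_le_aleph0
  have halg : Algebra.IsAlgebraic ℂ (MvPolynomial σ ℂ ⧸ M) := by
    refine ⟨fun x => ?_⟩
    by_contra hx
    have hx' : Transcendental ℂ x := hx
    have hli := hx'.linearIndependent_sub_inv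
    have hc := hli.cardinal_le_rank
    have h2 : #ℂ ≤ ℵ₀ := hc.trans hrank
    rw [Cardinal.mk_complex] at h2
    exact absurd h2 (not_le.2 Cardinal.aleph0_lt_continuum)
  have hbij : Function.Bijective (algebraMap ℂ (MvPolynomial σ ℂ ⧸ M)) := by
    have : Algebra.IsIntegral ℂ (MvPolynomial σ ℂ ⧸ M) := halg.isIntegral
    exact IsAlgClosed.algebraMap_bijective_of_isIntegral
  choose x hx using fun i : σ => hbij.2 (Ideal.Quotient.mk M (X i))
  refine ⟨x, fun p hp => ?_⟩
  apply hbij.1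
  rw [map_zero]
  have key : algebraMap ℂ (MvPolynomial σ ℂ ⧸ M) (eval x p) = Ideal.Quotient.mk M p := by
    have h3 : (Algebra.ofId ℂ (MvPolynomial σ ℂ ⧸ M)).comp (MvPolynomial.aeval x) =
        Ideal.Quotient.mkₐ ℂ M := by
      apply MvPolynomial.algHom_ext
      intro i
      simp only [AlgHom.comp_apply, aeval_X]
      exact hx i
    have h4 := congrArg (fun f => f p) h3
    simp only [AlgHom.comp_apply] at h4
    rw [← MvPolynomial.aeval_eq_eval]
    exact h4
  rw [key]
  exact Ideal.Quotient.eq_zero_iff_mem.2 (hIM hp)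

/-- A system of polynomial equations in countably many variables over `ℂ` without a common zero
has a finite subsystem without a common zero. -/
theorem null_finite {σ ι : Type} [Countable σ] (P : ι → MvPolynomial σ ℂ)
    (h : ¬ ∃ x : σ → ℂ, ∀ i, MvPolynomial.eval x (P i) = 0) :
    ∃ s : Finset ι, ¬ ∃ x : σ → ℂ, ∀ i ∈ s, MvPolynomial.eval x (P i) = 0 := by
  classical
  have htop : Ideal.span (Set.range P) = ⊤ := by
    by_contra hne
    obtain ⟨x, hx⟩ := null _ hne
    exact h ⟨x, fun i => hx _ (Ideal.subset_span ⟨i, rfl⟩)⟩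
  have h1 : (1 : MvPolynomial σ ℂ) ∈ Ideal.span (Set.range P) := by rw [htop]; trivial
  obtain ⟨c, hc⟩ := Finsupp.mem_ideal_span_range_iff_exists_finsupp.1 h1
  refine ⟨c.support, ?_⟩
  rintro ⟨x, hx⟩
  have h2 := congrArg (MvPolynomial.eval x) hc
  rw [Finsupp.sum, map_sum, map_one] at h2
  have h3 : ∑ i ∈ c.support, MvPolynomial.eval x (c i * P i) = 0 :=
    Finset.sum_eq_zero fun i hi => by rw [map_mul, hx i hi, mul_zero]
  rw [h3] at h2
  exact zero_ne_one h2

end Pool.Agent.W_92892c_h88f
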